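import Pool.Agent.Lib.H43Dist.Final

/-!
# The abstract group: derived length at most three, explicit growth of the distorted element
-/

set_option autoImplicit false

namespace Pool.Agent.Lib.H43I

open Pool.Agent.Lib.H43Dist Pool.Agent.Lib.H43Dist.Wreath Equiv

theorem derived_three {G : Type*} [Group G] (A B C : Subgroup G) (h1 : ⁅A, A⁆ ≤ B)
    (h2 : ⁅B, B⁆ ≤ C) (h3 : ⁅C, C⁆ = ⊥) : derivedSeries A 3 = ⊥ := by
  have e0 : (derivedSeries A 0).map A.subtype = A := by
    ext y
    simp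
  have e1 : (derivedSeries A 1).map A.subtype ≤ B := by
    rw [derivedSeries_succ, Subgroup.map_commutator, e0]
    exact h1
  have e2 : (derivedSeries A 2).map A.subtype ≤ C := by
    rw [derivedSeries_succ, Subgroup.map_commutator]
    exact (Subgroup.commutator_mono e1 e1).trans h2
  have e3 : (derivedSeries A 3).map A.subtype = ⊥ := by
    rw [derivedSeries_succ, Subgroup.map_commutator, eq_bot_iff, ← h3]
    exact Subgroup.commutator_mono e2 e2
  exact (Subgroup.map_eq_bot_iff_of_injective _ A.subtype_injective).1 e3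

theorem derived_of_injective {G K : Type*} [Group G] [Group K] (f : G →* K)
    (hf : Function.Injective f) (n : ℕ) (h : derivedSeries K n = ⊥) : derivedSeries G n = ⊥ := by
  have h1 := map_derivedSeries_le_derivedSeries f n
  rw [h, le_bot_iff] at h1
  exact (Subgroup.map_eq_bot_iff_of_injective _ hf).1 h1

theorem derived_of_surjective {G K : Type*} [Group G] [Group K] (f : G →* K)
    (hf : Function.Surjective f) (n : ℕ) (h : derivedSeries G n = ⊥) : derivedSeries K n = ⊥ := by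
  rw [← map_derivedSeries_eq hf n, h, Subgroup.map_bot]

theorem derived_of_fibred {X : Type} (D D1 : Subgroup (Perm X)) (h1 : ⁅D, D⁆ ≤ D1)
    (h2 : ∀ a ∈ D1, ∀ b ∈ D1, a * b = b * a) (S : Subgroup (Perm (ℤ × X))) (hS : S ≤ W D) :
    derivedSeries S 3 = ⊥ := by
  have hmono : K ⁅D, D⁆ ≤ K D1 := by
    intro φ hφ s
    obtain ⟨d, hd, h⟩ := hφ s
    exact ⟨d, h1 hd, h⟩
  refine derived_three S (K D) (K D1) ((Subgroup.commutator_mono hS hS).trans (W_comm_le D))
    ((K_comm_le D).trans hmono) ?_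
  rw [eq_bot_iff]
  refine (K_comm_le D1).trans ?_
  intro φ hφ
  rw [Subgroup.mem_bot]
  apply Equiv.ext
  rintro ⟨s, x⟩
  obtain ⟨d, hd, h⟩ := hφ s
  have hb : ⁅D1, D1⁆ = ⊥ := by
    rw [Subgroup.commutator_eq_bot_iff_le_centralizer]
    intro a ha
    rw [Subgroup.mem_centralizer_iff]
    intro b hb
    exact h2 b hb a ha
  rw [hb, Subgroup.mem_bot] at hd
  rw [h, hd]
  rfl

theorem derived_closure (P : ℕ → ℤ) (β : Perm Om) (hβ : IsBeta P β) :
    derivedSeries (Subgroup.closure {β, theta} : Subgroup (Perm Om)) 3 = ⊥ := by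
  refine derived_of_fibred GroupSolv.Dih GroupSolv.Rots GroupSolv.comm_le
    GroupSolv.rots_comm _ ?_
  rw [Subgroup.closure_le]
  rintro φ (rfl | rfl)
  · refine ⟨0, fun s => ?_⟩
    by_cases h : ∃ n, s = P n
    · obtain ⟨n, rfl⟩ := h
      have hinv : Function.Involutive
          (fun x : ℤ × Bool => (if x.2 then (x.1 + 5 ^ n, false) else (x.1 - 5 ^ n, true))) := by
        rintro ⟨τ, e⟩
        cases e <;> simp
      refine ⟨hinv.toPerm, Or.inr ⟨5 ^ n, fun τ => ⟨rfl, rfl⟩⟩, ?_⟩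
      rintro ⟨τ, e⟩
      cases e
      · rw [hβ.fa, add_zero]; rfl
      · rw [hβ.tr, add_zero]; rfl
    · refine ⟨1, GroupSolv.Dih.one_mem, ?_⟩
      rintro ⟨τ, e⟩
      rw [hβ.triv s τ e (fun n hn => h ⟨n, hn⟩), add_zero]
      rfl
  · exact ⟨1, fun s => ⟨1, GroupSolv.Dih.one_mem, fun x => rfl⟩⟩

/-! ## growth -/

theorem PP_le' (n : ℕ) : PP n ≤ 4 * (3 ^ n * (n + 3)) := by
  induction n with
  | zero => simp [PP]
  | succ n ih =>
    have h1 : PP (n + 1) = PP n + cost n := rfl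
    have h2 := cost_formula n
    have h3 : 3 ^ (n + 1) * (n + 1 + 3) = 3 * (3 ^ n * (n + 3)) + 3 * 3 ^ n := by ring
    have h4 : n < 3 ^ n := Nat.lt_pow_self (by norm_num)
    have h5 : 3 ^ n * 3 ≤ 3 ^ n * (n + 3) := Nat.mul_le_mul_left _ (by omega)
    omega

theorem PP_one : PP 1 = 24 := rfl

open GroupDist in
/-- words for all powers of the distorted element, with an explicit length -/
theorem greedy' (k : ℕ) : ∀ m : ℕ, m < NN (k + 1) → ∃ l : List (Perm Om), IsWord beta theta l ∧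
      l.prod = (cw beta 24) ^ m ∧ l.length ≤ 120 * (3 ^ k * (k + 3)) := by
  have hP0 : (fun n => (PP n : ℤ)) 0 = 0 := rfl
  have h2 : ∀ n, 2 * (fun n => (PP n : ℤ)) n < (fun n => (PP n : ℤ)) (n + 1) :=
    fun n => by
      have h := PP_succ_gt n
      show (2 : ℤ) * (PP n : ℤ) < (PP (n + 1) : ℤ)
      exact_mod_cast h
  induction k with
  | zero =>
    intro m hm
    have : m = 0 := by
      have h : NN (0 + 1) = 1 := rfl
      omega
    subst this
    exact ⟨[], fun s hs => by simp at hs, by simp, by simp⟩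
  | succ k ih =>
    intro m hm
    have hN : NN (k + 1 + 1) = 5 * NN (k + 1) + 1 := rfl
    have hpos : 0 < NN (k + 1) := by
      have h : NN (k + 1) = 5 * NN k + 1 := rfl
      omega
    obtain ⟨l, hl1, hl2, hl3⟩ := ih (m % NN (k + 1)) (Nat.mod_lt _ hpos)
    obtain ⟨l', h1, h3, h5⟩ := exists_rep (ww_isWord beta (PP (k + 1))) (m / NN (k + 1))
    have hq : m / NN (k + 1) ≤ 5 := by
      have : m / NN (k + 1) < 6 := by
        rw [Nat.div_lt_iff_lt_mul hpos]
        omega
      omega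
    refine ⟨l' ++ l, isWord_append h1 hl1, ?_, ?_⟩
    · have h6 : cw beta (PP (k + 1)) = (cw beta 24) ^ NN (k + 1) :=
        cw_eq_pow (fun n => (PP n : ℤ)) beta isBeta hP0 h2 (k + 1) (by omega)
      rw [List.prod_append, h3, hl2, ww_prod, h6, ← pow_mul, ← pow_add, Nat.div_add_mod]
    · rw [List.length_append, h5, ww_length]
      have h6 := PP_le' (k + 1)
      have h7 : m / NN (k + 1) * (4 * PP (k + 1) + 4) ≤ 5 * (4 * PP (k + 1) + 4) :=
        Nat.mul_le_mul_right _ hq
      have h8 : 3 ^ (k + 1) * (k + 1 + 3) = 3 * (3 ^ k * (k + 3)) + 3 * 3 ^ k := by ring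
      have h9 : 1 ≤ 3 ^ k := Nat.one_le_pow _ _ (by norm_num)
      omega

open GroupDist in
theorem exists_level (n : ℕ) : ∃ k, NN k ≤ n ∧ n < NN (k + 1) := by
  have hex : ∃ j, n < NN j := by
    refine ⟨n + 1, ?_⟩
    have : ∀ j, j ≤ NN j := by
      intro j
      induction j with
      | zero => exact le_rfl
      | succ j ih =>
        have : NN (j + 1) = 5 * NN j + 1 := rfl
        omega
    have := this (n + 1)
    omega
  classical
  have h5 := Nat.find_spec hex
  have h6 : Nat.find hex ≠ 0 := by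
    intro h
    rw [h] at h5
    exact absurd h5 (by simp [NN])
  obtain ⟨k, hk⟩ := Nat.exists_eq_succ_of_ne_zero h6
  have h7 : ¬ n < NN k := Nat.find_min hex (by omega)
  exact ⟨k, by omega, by rw [hk] at h5; exact h5⟩

open GroupDist in
theorem growth (n : ℕ) (hn : 1 ≤ n) : ∃ l : List (Perm Om), IsWord beta theta l ∧
      l.prod = (cw beta 24) ^ n ∧
      (l.length : ℝ) ≤ 360 * (n : ℝ) ^ Real.logb 5 3 * (4 + Real.logb 5 n) := by
  obtain ⟨k, hk1, hk2⟩ := exists_level n
  obtain ⟨l, h1, h2, h3⟩ := greedy' k n hk2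
  refine ⟨l, h1, h2, ?_⟩
  have h4 : 5 ^ k ≤ 5 * n := by
    have := NN_spec k
    omega
  have hn' : (1 : ℝ) ≤ n := by exact_mod_cast hn
  have h4' : (5 : ℝ) ^ k ≤ 5 * n := by exact_mod_cast h4
  have h5 : (k : ℝ) ≤ 1 + Real.logb 5 n := by
    have h6 : Real.logb 5 ((5 : ℝ) ^ k) ≤ Real.logb 5 (5 * n) :=
      Real.logb_le_logb_of_le (by norm_num) (by positivity) h4'
    rw [Real.logb_pow, Real.logb_mul (by norm_num) (by positivity),
      Real.logb_self_eq_one (by norm_num)] at h6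
    linarith
  have ha : 0 ≤ Real.logb 5 3 := Real.logb_nonneg (by norm_num) (by norm_num)
  have h6 : (3 : ℝ) ^ k ≤ 3 * (n : ℝ) ^ Real.logb 5 3 := by
    have h7 : (3 : ℝ) = 5 ^ Real.logb 5 3 :=
      (Real.rpow_logb (by norm_num) (by norm_num) (by norm_num)).symm
    have h8 : (3 : ℝ) ^ k = ((5 : ℝ) ^ k) ^ Real.logb 5 3 := by
      conv_lhs => rw [h7]
      rw [← Real.rpow_natCast, ← Real.rpow_natCast, ← Real.rpow_mul (by norm_num),
        ← Real.rpow_mul (by norm_num), mul_comm]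
    rw [h8]
    refine (Real.rpow_le_rpow (by positivity) h4' ha).trans ?_
    rw [Real.mul_rpow (by norm_num) (by positivity), ← h7]
  have h9 : (l.length : ℝ) ≤ 120 * ((3 : ℝ) ^ k * (k + 3)) := by exact_mod_cast h3
  refine h9.trans ?_
  have h10 : 0 ≤ (n : ℝ) ^ Real.logb 5 3 := by positivity
  have h11 : (3 : ℝ) ^ k * (k + 3) ≤ (3 * (n : ℝ) ^ Real.logb 5 3) * (4 + Real.logb 5 n) :=
    mul_le_mul h6 (by linarith) (by positivity) (by positivity)
  nlinarith

end Pool.Agent.Lib.H43I
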