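import Pool.Agent.Lib.H43I.Top

/-!
# Assembly: a solvable group of automorphisms of a subshift with a distorted element, with growth
-/

set_option autoImplicit false

namespace Pool.Agent.Lib.H43I

open Pool.Agent.Lib.H43Dist Pool.Agent.Lib.H43Dist.Red

theorem own_main : ∃ (k : ℕ) (X : Set (ℤ → Fin k)), X.Nonempty ∧ IsClosed X ∧
      (fun x : ℤ → Fin k => fun i : ℤ => x (i + 1)) '' X = X ∧
      ∃ H : Subgroup (X ≃ₜ X),
        (∀ f ∈ H, ∀ x y : X, (y : ℤ → Fin k) = (fun i : ℤ => (x : ℤ → Fin k) (i + 1)) →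
          (f y : ℤ → Fin k) = fun i : ℤ => (f x : ℤ → Fin k) (i + 1)) ∧
        derivedSeries H 3 = ⊥ ∧
        ∃ b t : H, Subgroup.closure {b, t} = ⊤ ∧ b * b = 1 ∧
          (∀ n : ℕ, 0 < n → (wd b t) ^ n ≠ 1) ∧
          ∀ n : ℕ, 1 ≤ n → ∃ l : List H,
            (∀ s ∈ l, s ∈ ({b, t} : Set H) ∨ s⁻¹ ∈ ({b, t} : Set H)) ∧
              l.prod = (wd b t) ^ n ∧
              (l.length : ℝ) ≤ 360 * (n : ℝ) ^ Real.logb 5 3 * (4 + Real.logb 5 n) := by
  have hwd : wd beta theta = GroupDist.cw beta 24 := by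
    unfold wd GroupDist.cw
    rw [pow_two]
    simp only [mul_assoc]
  let e : Al ≃ Fin (Nat.card Al) := Finite.equivFin Al
  refine ⟨Nat.card Al, own_of_system_fin (0, 0, true) (fun ω i => e (enc (conf ω) i)) beta theta
    (conj e Fb) (conj e Fb') (conj e Ft)
    (conj e Ft') (isLocal_conj e Fb_local) (isLocal_conj e Fb'_local) (isLocal_conj e Ft_local)
    (isLocal_conj e Ft'_local) ?_ ?_ ?_ ?_ (derived_closure _ beta isBeta) ?_ ?_
    (fun n => 360 * (n : ℝ) ^ Real.logb 5 3 * (4 + Real.logb 5 n)) ?_⟩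
  · intro ω; rw [conj_apply, Fb_enc, conf_beta]
  · intro ω; rw [conj_apply, Fb'_enc, conf_beta_inv]
  · intro ω; rw [conj_apply, Ft_enc, conf_theta]
  · intro ω; rw [conj_apply, Ft'_enc, conf_theta_inv]
  · apply Equiv.ext
    intro w
    exact betaf_betaf w
  · intro n hn
    refine ⟨(0, -1, true), fun h => ?_⟩
    have h1 : ∀ τ, ((wd beta theta) ^ n) (0, τ, true) = (0, τ + 8 * n, true) := by
      intro τ
      rw [hwd]
      have h3 := ((GroupDist.isTr_cw (fun n => (PP n : ℤ)) beta isBeta rfl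
        (fun n => by
          have h := PP_succ_gt n
          show (2 : ℤ) * (PP n : ℤ) < (PP (n + 1) : ℤ)
          exact_mod_cast h) 1 le_rfl).pow n).pos τ
      have h4 : ((PP 1 : ℤ)).toNat = 24 := rfl
      simp only [h4] at h3
      rw [h3]
      norm_num
    rw [h1] at h
    have h2 : enc (conf (0, -1 + 8 * (n : ℤ), true)) = enc (conf (0, -1, true)) := by
      funext i
      exact e.injective (congrFun h i)
    have h4 := enc_p h2
    have h5 : X (-1 + 8 * (n : ℤ) + 1) = X (-1 + 1) := by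
      simpa [conf, Disp] using h4
    rw [show (-1 + 1 : ℤ) = 0 by norm_num, (X_eq_zero 0).2 rfl, X_eq_zero] at h5
    omega
  · intro n hn
    rw [hwd]
    exact growth n hn

end Pool.Agent.Lib.H43I
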