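import Pool.Agent.Lib.H43I.Grp

/-!
# The closure subshift, with homeomorphisms
-/

set_option autoImplicit false

namespace Pool.Agent.Lib.H43I

open Pool.Agent.Lib.H43Dist Pool.Agent.Lib.H43Dist.Red

section Cl

variable {k : ℕ} {Ω : Type}

theorem isClosed_XX (E : Ω → ℤ → Fin k) : IsClosed (XX E) := by
  rw [← closure_subset_iff_isClosed]
  intro x hx
  refine XX_closed E x fun N => ?_
  have hopen : IsOpen {y : ℤ → Fin k | ∀ i ∈ Finset.Icc (-(N : ℤ)) N, y i = x i} := by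
    have h1 : {y : ℤ → Fin k | ∀ i ∈ Finset.Icc (-(N : ℤ)) N, y i = x i} =
        ⋂ i ∈ Finset.Icc (-(N : ℤ)) N, (fun y : ℤ → Fin k => y i) ⁻¹' {x i} := by
      ext y
      simp
    rw [h1]
    exact isOpen_biInter_finset fun i _ => (isOpen_discrete _).preimage (continuous_apply i)
  obtain ⟨y, hy1, hy2⟩ := mem_closure_iff.1 hx _ hopen (fun i _ => rfl)
  refine ⟨y, hy2, fun i hi => hy1 i ?_⟩
  rw [Finset.mem_Icc]
  exact abs_le.1 hi

theorem continuous_local {F : (ℤ → Fin k) → (ℤ → Fin k)} (hF : IsLocal F) : Continuous F := by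
  refine continuous_pi fun n => ?_
  obtain ⟨r, hr⟩ := loc_window hF
  rw [continuous_discrete_rng]
  intro b
  rw [isOpen_iff_mem_nhds]
  intro x hx
  have hopen : IsOpen {y : ℤ → Fin k | ∀ i ∈ Finset.Icc (-(r : ℤ)) r, y (i + n) = x (i + n)} := by
    have h1 : {y : ℤ → Fin k | ∀ i ∈ Finset.Icc (-(r : ℤ)) r, y (i + n) = x (i + n)} =
        ⋂ i ∈ Finset.Icc (-(r : ℤ)) r, (fun y : ℤ → Fin k => y (i + n)) ⁻¹' {x (i + n)} := by
      ext y
      simp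
    rw [h1]
    exact isOpen_biInter_finset fun i _ =>
      (isOpen_discrete _).preimage (continuous_apply (i + n))
  refine Filter.mem_of_superset (hopen.mem_nhds fun i _ => rfl) ?_
  intro y hy
  have h2 : F y n = F x n := by
    refine hr y x n n fun i hi => hy i ?_
    rw [Finset.mem_Icc]
    exact abs_le.1 hi
  simp only [Set.mem_preimage, Set.mem_singleton_iff] at hx ⊢
  rw [h2, hx]

/-- The homeomorphism of the closure given by a local map and a local inverse. -/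
def toHomeo (E : Ω → ℤ → Fin k) (F F' : (ℤ → Fin k) → (ℤ → Fin k)) (hF : IsLocal F)
    (hF' : IsLocal F') (f : Equiv.Perm Ω) (h : ∀ ω, F (E ω) = E (f ω))
    (h' : ∀ ω, F' (E ω) = E (f⁻¹ ω)) : XX E ≃ₜ XX E where
  toEquiv := toPerm E F F' hF hF' f h h'
  continuous_toFun := Continuous.subtype_mk ((continuous_local hF).comp continuous_subtype_val) _
  continuous_invFun := Continuous.subtype_mk ((continuous_local hF').comp continuous_subtype_val) _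

theorem toHomeo_apply (E : Ω → ℤ → Fin k) (F F' : (ℤ → Fin k) → (ℤ → Fin k)) (hF : IsLocal F)
    (hF' : IsLocal F') (f : Equiv.Perm Ω) (h : ∀ ω, F (E ω) = E (f ω))
    (h' : ∀ ω, F' (E ω) = E (f⁻¹ ω)) (x : XX E) :
    (toHomeo E F F' hF hF' f h h' x : ℤ → Fin k) = F x := rfl

theorem toHomeo_inv_apply (E : Ω → ℤ → Fin k) (F F' : (ℤ → Fin k) → (ℤ → Fin k))
    (hF : IsLocal F) (hF' : IsLocal F') (f : Equiv.Perm Ω) (h : ∀ ω, F (E ω) = E (f ω))
    (h' : ∀ ω, F' (E ω) = E (f⁻¹ ω)) (x : XX E) :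
    ((toHomeo E F F' hF hF' f h h')⁻¹ x : ℤ → Fin k) = F' x := rfl

/-- compatibility of a permutation of the index set and a homeomorphism of the closure -/
def Cm (E : Ω → ℤ → Fin k) (f : Equiv.Perm Ω) (φ : XX E ≃ₜ XX E) : Prop :=
  ∃ F : (ℤ → Fin k) → (ℤ → Fin k), IsLocal F ∧ (∀ ω, F (E ω) = E (f ω)) ∧
    ∀ x : XX E, (φ x).1 = F x.1

theorem Cm.mul {E : Ω → ℤ → Fin k} {f g : Equiv.Perm Ω} {φ ψ : XX E ≃ₜ XX E}
    (h : Cm E f φ) (h' : Cm E g ψ) : Cm E (f * g) (φ * ψ) := by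
  obtain ⟨F, hF, h1, h2⟩ := h
  obtain ⟨F', hF', h1', h2'⟩ := h'
  refine ⟨_, loc_comp hF hF', fun ω => ?_, fun x => ?_⟩
  · show F (F' (E ω)) = _
    rw [h1', h1]
    rfl
  · show (φ (ψ x)).1 = F (F' x.1)
    rw [h2, h2']

theorem Cm.one (E : Ω → ℤ → Fin k) : Cm E 1 1 :=
  ⟨_, isLocal_id, fun _ => rfl, fun _ => rfl⟩

theorem Cm.eq_one {E : Ω → ℤ → Fin k} {φ : XX E ≃ₜ XX E} (h : Cm E 1 φ) : φ = 1 := by
  obtain ⟨F, hF, h1, h2⟩ := h
  apply Homeomorph.ext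
  intro x
  apply Subtype.ext
  rw [h2]
  exact fix_XX hF (fun ω => h1 ω) x.2

/-- the group of compatible pairs -/
def KH (E : Ω → ℤ → Fin k) : Subgroup (Equiv.Perm Ω × (XX E ≃ₜ XX E)) where
  carrier := {p | Cm E p.1 p.2 ∧ Cm E p.1⁻¹ p.2⁻¹}
  mul_mem' := by
    rintro ⟨f, φ⟩ ⟨g, ψ⟩ ⟨h1, h2⟩ ⟨h3, h4⟩
    refine ⟨h1.mul h3, ?_⟩
    show Cm E (f * g)⁻¹ (φ * ψ)⁻¹
    rw [mul_inv_rev, mul_inv_rev]
    exact h4.mul h2
  one_mem' := by
    refine ⟨Cm.one E, ?_⟩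
    show Cm E (1 : Equiv.Perm Ω)⁻¹ (1 : XX E ≃ₜ XX E)⁻¹
    rw [inv_one, inv_one]
    exact Cm.one E
  inv_mem' := by
    rintro ⟨f, φ⟩ ⟨h1, h2⟩
    refine ⟨h2, ?_⟩
    show Cm E f⁻¹⁻¹ φ⁻¹⁻¹
    rw [inv_inv, inv_inv]
    exact h1

theorem KH_inj {E : Ω → ℤ → Fin k} {f : Equiv.Perm Ω} {φ ψ : XX E ≃ₜ XX E}
    (h : (f, φ) ∈ KH E) (h' : (f, ψ) ∈ KH E) : φ = ψ := by
  have h1 : (f, φ) * (f, ψ)⁻¹ ∈ KH E := (KH E).mul_mem h ((KH E).inv_mem h')
  have h2 : Cm E (f * f⁻¹) (φ * ψ⁻¹) := h1.1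
  rw [mul_inv_cancel] at h2
  exact mul_inv_eq_one.1 h2.eq_one

end Cl

/-- The square of the product of `x` and its conjugate by the 24th power of `y`. -/
def wd {G : Type*} [Group G] (x y : G) : G := (x * (y⁻¹ ^ 24 * x * y ^ 24)) ^ 2

/-- The general reduction, for the alphabet `Fin k`. -/
theorem own_of_system_fin {k : ℕ} {Ω : Type} (ω₀ : Ω) (E : Ω → ℤ → Fin k)
    (β θ : Equiv.Perm Ω) (Fb Fb' Ft Ft' : (ℤ → Fin k) → (ℤ → Fin k))
    (hb : IsLocal Fb) (hb' : IsLocal Fb') (ht : IsLocal Ft) (ht' : IsLocal Ft')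
    (eb : ∀ ω, Fb (E ω) = E (β ω)) (eb' : ∀ ω, Fb' (E ω) = E (β⁻¹ ω))
    (et : ∀ ω, Ft (E ω) = E (θ ω)) (et' : ∀ ω, Ft' (E ω) = E (θ⁻¹ ω))
    (hsol : derivedSeries (Subgroup.closure {β, θ} : Subgroup (Equiv.Perm Ω)) 3 = ⊥)
    (hββ : β * β = 1)
    (hγ : ∀ n : ℕ, 0 < n → ∃ ω, E (((wd β θ) ^ n) ω) ≠ E ω)
    (u : ℕ → ℝ)
    (hd : ∀ n : ℕ, 1 ≤ n → ∃ l : List (Equiv.Perm Ω),
      IsWord β θ l ∧ l.prod = (wd β θ) ^ n ∧ (l.length : ℝ) ≤ u n) :
    ∃ X : Set (ℤ → Fin k), X.Nonempty ∧ IsClosed X ∧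
      (fun x : ℤ → Fin k => fun i : ℤ => x (i + 1)) '' X = X ∧
      ∃ H : Subgroup (X ≃ₜ X),
        (∀ f ∈ H, ∀ x y : X, (y : ℤ → Fin k) = (fun i : ℤ => (x : ℤ → Fin k) (i + 1)) →
          (f y : ℤ → Fin k) = fun i : ℤ => (f x : ℤ → Fin k) (i + 1)) ∧
        derivedSeries H 3 = ⊥ ∧
        ∃ b t : H, Subgroup.closure {b, t} = ⊤ ∧ b * b = 1 ∧
          (∀ n : ℕ, 0 < n → (wd b t) ^ n ≠ 1) ∧
          ∀ n : ℕ, 1 ≤ n → ∃ l : List H,
            (∀ s ∈ l, s ∈ ({b, t} : Set H) ∨ s⁻¹ ∈ ({b, t} : Set H)) ∧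
              l.prod = (wd b t) ^ n ∧ (l.length : ℝ) ≤ u n := by
  classical
  set b : XX E ≃ₜ XX E := toHomeo E Fb Fb' hb hb' β eb eb' with hbdef
  set t : XX E ≃ₜ XX E := toHomeo E Ft Ft' ht ht' θ et et' with htdef
  set K : Subgroup (Equiv.Perm Ω × (XX E ≃ₜ XX E)) := Subgroup.closure {(β, b), (θ, t)}
    with hK
  have hKb : (β, b) ∈ K := Subgroup.subset_closure (by simp)
  have hKt : (θ, t) ∈ K := Subgroup.subset_closure (by simp)
  have hKK : K ≤ KH E := by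
    rw [hK, Subgroup.closure_le]
    rintro p (rfl | rfl)
    · exact ⟨⟨Fb, hb, eb, fun x => toHomeo_apply E Fb Fb' hb hb' β eb eb' x⟩,
        ⟨Fb', hb', eb', fun x => toHomeo_inv_apply E Fb Fb' hb hb' β eb eb' x⟩⟩
    · exact ⟨⟨Ft, ht, et, fun x => toHomeo_apply E Ft Ft' ht ht' θ et et' x⟩,
        ⟨Ft', ht', et', fun x => toHomeo_inv_apply E Ft Ft' ht ht' θ et et' x⟩⟩
  set G : Subgroup (XX E ≃ₜ XX E) := K.map (MonoidHom.snd _ _) with hG
  have hGmem : ∀ φ ∈ G, ∃ f, (f, φ) ∈ K := by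
    rintro φ ⟨⟨f, ψ⟩, hp, rfl⟩
    exact ⟨f, hp⟩
  have hmemG : ∀ f φ, (f, φ) ∈ K → φ ∈ G := fun f φ h => ⟨(f, φ), h, rfl⟩
  have hGcl : G = Subgroup.closure {b, t} := by
    rw [hG, hK, MonoidHom.map_closure]
    congr 1
    ext z
    simp [eq_comm]
  have hKsol : derivedSeries K 3 = ⊥ := by
    have hfst : ∀ p : K, (p.1.1) ∈ Subgroup.closure ({β, θ} : Set (Equiv.Perm Ω)) := by
      rintro ⟨p, hp⟩
      have : K ≤ (Subgroup.closure ({β, θ} : Set (Equiv.Perm Ω))).comap (MonoidHom.fst _ _) := by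
        rw [hK, Subgroup.closure_le]
        rintro q (rfl | rfl)
        · exact Subgroup.subset_closure (by simp)
        · exact Subgroup.subset_closure (by simp)
      exact this hp
    let f : K →* (Subgroup.closure ({β, θ} : Set (Equiv.Perm Ω))) :=
      ((MonoidHom.fst _ _).comp K.subtype).codRestrict _ hfst
    have hf : Function.Injective f := by
      rintro ⟨⟨p1, p2⟩, hp⟩ ⟨⟨q1, q2⟩, hq⟩ h
      have h1 : p1 = q1 := congrArg Subtype.val h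
      subst h1
      have h2 : p2 = q2 := KH_inj (hKK hp) (hKK hq)
      subst h2
      rfl
    exact derived_of_injective f hf 3 hsol
  have hGsol : derivedSeries G 3 = ⊥ := by
    let f : K →* G := ((MonoidHom.snd _ _).comp K.subtype).codRestrict G
      (fun p => hmemG _ _ p.2)
    have hf : Function.Surjective f := by
      rintro ⟨φ, hφ⟩
      obtain ⟨g, hg⟩ := hGmem φ hφ
      exact ⟨⟨(g, φ), hg⟩, rfl⟩
    exact derived_of_surjective f hf 3 hKsol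
  have hbG : b ∈ G := hmemG _ _ hKb
  have htG : t ∈ G := hmemG _ _ hKt
  set b' : G := ⟨b, hbG⟩ with hb'def
  set t' : G := ⟨t, htG⟩ with ht'def
  have hword : ∀ l : List (Equiv.Perm Ω), IsWord β θ l →
      ∃ l' : List G, (∀ s ∈ l', s ∈ ({b', t'} : Set G) ∨ s⁻¹ ∈ ({b', t'} : Set G)) ∧
        (l.prod, (l'.prod : XX E ≃ₜ XX E)) ∈ K ∧ l'.length = l.length := by
    intro l
    induction l with
    | nil =>
      intro _
      exact ⟨[], by simp, K.one_mem, rfl⟩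
    | cons s l ih =>
      intro hl
      obtain ⟨l', h1, h2, h3⟩ := ih (fun s hs => hl s (List.mem_cons_of_mem _ hs))
      obtain ⟨v, hv, hsv⟩ : ∃ v : G, (v ∈ ({b', t'} : Set G) ∨ v⁻¹ ∈ ({b', t'} : Set G)) ∧
          (s, (v : XX E ≃ₜ XX E)) ∈ K := by
        rcases hl s List.mem_cons_self with rfl | rfl | rfl | rfl
        · exact ⟨b', Or.inl (by simp), hKb⟩
        · exact ⟨t', Or.inl (by simp), hKt⟩
        · exact ⟨b'⁻¹, Or.inr (by simp), K.inv_mem hKb⟩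
        · exact ⟨t'⁻¹, Or.inr (by simp), K.inv_mem hKt⟩
      refine ⟨v :: l', ?_, ?_, by simp [h3]⟩
      · intro z hz
        rcases List.mem_cons.1 hz with rfl | hz
        · exact hv
        · exact h1 z hz
      · have := K.mul_mem hsv h2
        simpa using this
  -- the distinguished element
  have hg0 : (wd β θ, ((wd b' t' : G) : XX E ≃ₜ XX E)) ∈ K := by
    have h := K.pow_mem (K.mul_mem hKb (K.mul_mem (K.mul_mem (K.pow_mem (K.inv_mem hKt) 24) hKb)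
      (K.pow_mem hKt 24))) 2
    exact h
  have hgpow : ∀ n : ℕ, ((wd β θ) ^ n, (((wd b' t') ^ n : G) : XX E ≃ₜ XX E)) ∈ K := by
    intro n
    have := K.pow_mem hg0 n
    simpa using this
  refine ⟨XX E, ⟨E ω₀, mem_XX E ω₀⟩, isClosed_XX E, ?_, G, ?_, hGsol, b', t', ?_, ?_, ?_, ?_⟩
  · apply Set.Subset.antisymm
    · rintro _ ⟨x, hx, rfl⟩
      exact XX_shift E x hx 1
    · intro x hx
      refine ⟨fun i => x (i + (-1)), XX_shift E x hx (-1), ?_⟩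
      funext i
      show x (i + 1 + (-1)) = x i
      congr 1
      ring
  · intro φ hφ x y hxy
    obtain ⟨f, hf⟩ := hGmem φ hφ
    obtain ⟨F, hF, hF1, hF2⟩ := (hKK hf).1
    show (φ y).1 = fun i => (φ x).1 (i + 1)
    rw [hF2 y, hF2 x, hxy, hF.1]
  · rw [eq_top_iff]
    rintro ⟨z, hz⟩ -
    have hmap : (Subgroup.closure ({b', t'} : Set G)).map G.subtype = G := by
      rw [MonoidHom.map_closure, Set.image_pair]
      exact hGcl.symm
    have hz' : z ∈ (Subgroup.closure ({b', t'} : Set G)).map G.subtype := by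
      rw [hmap]
      exact hz
    obtain ⟨z', hz1, hz2⟩ := hz'
    have : z' = ⟨z, hz⟩ := Subtype.ext hz2
    rw [← this]
    exact hz1
  · apply Subtype.ext
    have h1 : ((β, b) * (β, b) : Equiv.Perm Ω × (XX E ≃ₜ XX E)) ∈ KH E :=
      hKK (K.mul_mem hKb hKb)
    have h2 : Cm E (β * β) (b * b) := h1.1
    rw [hββ] at h2
    exact h2.eq_one
  · intro n hn hgn
    obtain ⟨ω, hω⟩ := hγ n hn
    have h1 := hgpow n
    rw [hgn] at h1
    obtain ⟨F, hF, hF1, hF2⟩ := (hKK h1).1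
    apply hω
    have h3 := hF2 ⟨E ω, mem_XX E ω⟩
    have h4 : E ω = F (E ω) := h3
    rw [h4]
    exact (hF1 ω).symm
  · intro n hn
    obtain ⟨l, hl, hlp, hlen⟩ := hd n hn
    obtain ⟨l', h1, h2, h3⟩ := hword l hl
    rw [hlp] at h2
    refine ⟨l', h1, ?_, by rw [h3]; exact hlen⟩
    apply Subtype.ext
    exact KH_inj (hKK h2) (hKK (hgpow n))

end Pool.Agent.Lib.H43I
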